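import Pool.Agent.Z15.W.Stm
import Pool.Agent.Z15.J.SA2
import Pool.Agent.T2h62.J15.INDi

/-!
All cycles are multiples of a linear subspace: the induction on the number of blocks.
-/

set_option autoImplicit false
set_option linter.all false

open FF MvPolynomial Pool.Agent.Z15.H Pool.Agent.Z15.J Pool.Agent.Z15.J.Stm Pool.Agent.Z15.S
  Pool.Agent.Z15.W

namespace Pool.Agent.T2h92.W15

open Pool.Agent.T2h62.J15 (cyc_pt)

section flag

variable {K ι α : Type} [Field K] {F : α → MvPolynomial ι K} {b : ι → ℕ} {s : ℕ}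
  {Λ : ℕ → ι → K}

theorem flag_li (h : Flag F b s Λ) {n : ℕ} (hn : n ≤ s) :
    LinearIndependent K (fun j : Fin (n + 1) => Λ j) := by
  rw [Fintype.linearIndependent_iff]
  intro g hg i
  obtain ⟨x, hx⟩ : ∃ x, Λ i x ≠ 0 := by
    by_contra hcon
    push Not at hcon
    exact h.ne i (by have := i.2; omega) (funext hcon)
  have hbx : b x = i := by
    by_contra hne
    exact hx (h.supp i (by have := i.2; omega) x hne)
  have h1 := congrFun hg x
  rw [Finset.sum_apply, Finset.sum_eq_single i] at h1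
  · rw [Pi.smul_apply, smul_eq_mul, Pi.zero_apply] at h1
    exact (mul_eq_zero.1 h1).resolve_right hx
  · intro j _ hj
    rw [Pi.smul_apply, h.supp j (by have := j.2; omega) x, smul_zero]
    rw [hbx]
    intro h2
    exact hj (Fin.ext h2.symm)
  · intro h2
    exact absurd (Finset.mem_univ i) h2

theorem flag_eval (h : Flag F b s Λ) (a : α) : eval (Λ 0) (F a) = 0 := by
  have h1 := h.van a K (fun j => if j = 0 then 1 else 0)
  rw [← MvPolynomial.coe_aeval_eq_eval]
  refine Eq.trans ?_ h1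
  change aeval _ _ = aeval _ _
  congr 2
  funext i
  rw [Finset.sum_eq_single 0]
  · rw [if_pos rfl, one_mul]
    rfl
  · intro j _ hj
    rw [if_neg hj, zero_mul]
  · intro h2
    exact absurd (Finset.mem_range.2 (Nat.succ_pos s)) h2

end flag

theorem mem_bS {ι : Type} [Fintype ι] {b : ι → ℕ} {s : ℕ} {i : ι} :
    i ∈ bS b s ↔ 1 ≤ b i ∧ b i ≤ s := by
  unfold bS
  rw [Finset.mem_filter]
  exact ⟨fun h => h.2, fun h => ⟨Finset.mem_univ _, h⟩⟩

theorem sum_phiS {K ι A : Type} [Field K] [CommRing A] [Algebra K A] (S : Finset ι) {v : ι → A}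
    (hv : Supp S v) (i : ι) :
    ∑ n : {i // i ∈ S}, v n.1 * algebraMap K A (phiS K S n i) = v i := by
  classical
  unfold phiS
  by_cases hi : i ∈ S
  · rw [Finset.sum_eq_single ⟨i, hi⟩]
    · rw [Pi.single_eq_same, map_one, mul_one]
    · intro j _ hj
      rw [Pi.single_eq_of_ne, map_zero, mul_zero]
      intro h
      exact hj (Subtype.ext h.symm)
    · intro h
      exact absurd (Finset.mem_univ _) h
  · rw [hv i hi]
    refine Finset.sum_eq_zero fun j _ => ?_
    rw [Pi.single_eq_of_ne, map_zero, mul_zero]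
    rintro rfl
    exact hi j.2

section sys

variable {K ι α : Type} [Field K] [Fintype ι] [Fintype α] {F : α → MvPolynomial ι K}
  {d : α → ℕ} {b : ι → ℕ} {s m : ℕ}

theorem mu_lt (h : Sys F d b s m) (a : α) : mu d m a < d a := by
  have := h.pos a
  unfold mu
  omega

theorem mix_zero (h : Sys F d b s m) (a : α) :
    Mix (F a) (bS b s) (Finset.univ.filter fun i => b i = 0) (mu d m a) := by
  classical
  rintro τ hτ ⟨i, hi, hτi⟩
  have hbi : b i = 0 := (Finset.mem_filter.1 hi).2
  have hS : bS b s = Finset.univ.filter fun i' => b i < b i' ∧ b i' ≤ s := by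
    unfold bS
    refine Finset.filter_congr fun i' _ => ?_
    rw [hbi]
    exact Iff.rfl
  refine le_min ?_ ?_
  · rw [hS]
    exact h.mix a τ hτ i hτi
  · have h1 : τ.degree = d a := by
      rw [← (h.hom a) (mem_support_iff.1 hτ), Finsupp.degree_eq_weight_one]
      rfl
    have h2 : ∑ i, τ i = d a := by
      rw [← h1, Finsupp.degree_eq_sum]
    have hiS : i ∉ bS b s := by
      rw [mem_bS, hbi]
      omega
    have h3 : ∑ i' ∈ insert i (bS b s), τ i' ≤ ∑ i', τ i' :=
      Finset.sum_le_sum_of_subset (Finset.subset_univ _)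
    rw [Finset.sum_insert hiS, h2] at h3
    omega

theorem dS_pos (h : Sys F d b s m) (x : Σ a, Fin (mu d m a + 1)) : 0 < dS d (mu d m) x := by
  unfold dS
  have := h.pos x.1
  split_ifs with hx <;> omega

end sys

/-- the flag of the system `HS` -/
theorem flag_HS {K ι α : Type} [Field K] [Fintype ι] {F : α → MvPolynomial ι K}
    {d μ : α → ℕ} {b : ι → ℕ} {s : ℕ} {Λ : ℕ → ι → K} (h : Flag F b (s + 1) Λ)
    (hd : ∀ x : Σ a, Fin (μ a + 1), 0 < dS d μ x) :
    Flag (HS F d μ (bS b (s + 1)) (Λ 0)) (fun i : {i // i ∈ bS b (s + 1)} => b i.1 - 1) s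
      (fun j i => Λ (j + 1) i.1) where
  ne := fun j hj h0 => h.ne (j + 1) (by omega) (by
    funext i
    by_cases hi : i ∈ bS b (s + 1)
    · exact congrFun h0 ⟨i, hi⟩
    · refine h.supp (j + 1) (by omega) i fun hb => hi ?_
      rw [mem_bS, hb]
      omega)
  supp := fun j hj i hi => by
    have h1 := mem_bS.1 i.2
    exact h.supp (j + 1) (by omega) i.1 (by omega)
  van := fun x A _ _ c => by
    have hsupp : Supp (bS b (s + 1)) (fun i => ∑ j ∈ Finset.range (s + 1),
        c j * algebraMap K A (Λ (j + 1) i)) := by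
      intro i hi
      refine Finset.sum_eq_zero fun j hj => ?_
      have hj' := Finset.mem_range.1 hj
      rw [h.supp (j + 1) (by omega) i, map_zero, mul_zero]
      intro hb
      apply hi
      rw [mem_bS, hb]
      omega
    obtain ⟨J, hJ⟩ : ∃ J, J = dS d μ x := ⟨_, rfl⟩
    have hJ0 : 0 < J := hJ ▸ hd x
    have e1 : HS F d μ (bS b (s + 1)) (Λ 0) x = Hf (F x.1) (Λ 0) (phiS K (bS b (s + 1))) J := by
      rw [hJ]
      rfl
    rw [e1, hf_eval]
    have e2 : (fun i => ∑ n : {i // i ∈ bS b (s + 1)}, (∑ j ∈ Finset.range (s + 1),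
        c j * algebraMap K A (Λ (j + 1) n.1)) * algebraMap K A (phiS K (bS b (s + 1)) n i)) =
        fun i => ∑ j ∈ Finset.range (s + 1), c j * algebraMap K A (Λ (j + 1) i) :=
      funext fun i => sum_phiS _ hsupp i
    rw [e2]
    unfold co
    have h1 := h.van x.1 (Polynomial A) (fun j => if j = 0 then 1 else
      Polynomial.X * Polynomial.C (c (j - 1)))
    have e3 : (fun i => ∑ j ∈ Finset.range (s + 1 + 1), (if j = 0 then 1 else
        Polynomial.X * Polynomial.C (c (j - 1))) * algebraMap K (Polynomial A) (Λ j i)) =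
        fun i => Polynomial.C (algebraMap K A (Λ 0 i)) + Polynomial.X * Polynomial.C
          (∑ j ∈ Finset.range (s + 1), c j * algebraMap K A (Λ (j + 1) i)) := by
      funext i
      rw [Finset.sum_range_succ', if_pos rfl, one_mul, add_comm]
      congr 1
      rw [map_sum, Finset.mul_sum]
      refine Finset.sum_congr rfl fun j _ => ?_
      rw [if_neg (Nat.succ_ne_zero j), Nat.add_sub_cancel, mul_assoc, map_mul]
      rfl
    rw [e3] at h1
    rw [h1, Polynomial.coeff_zero]

theorem w_Pi : W_Pi := by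
  intro hQ hGS hSYS hUA hWD hC hLIN hCO hPEN s
  induction s with
  | zero =>
    intro K _ _ ι α _ _ _ F d b m hsys Λ hΛ l hl E _ _ P htr hP hFP
    obtain rfl : l = 0 := Nat.le_zero.1 hl
    have h1 := hPEN K ι α F d hsys.pos hsys.hom hsys.sizes.total (Λ 0) (hΛ.ne 0 le_rfl)
      (flag_eval hΛ) E P (by rw [htr, Nat.cast_zero]) hP hFP
    have h2 := cyc_pt (k := K) (fl := Λ) (hΛ.ne 0 le_rfl) K
    have h3 : cyc K (Λ 0) = lin K Λ 0 := h2
    rw [← h3]
    exact h1
  | succ s ih =>
    intro K _ _ ι α _ _ _ F d b m hsys Λ hΛ l hl E _ _ P htr hP hFP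
    classical
    rcases l with _ | n
    · have h1 := hPEN K ι α F d hsys.pos hsys.hom hsys.sizes.total (Λ 0)
        (hΛ.ne 0 (Nat.zero_le _)) (flag_eval hΛ) E P (by rw [htr, Nat.cast_zero]) hP hFP
      have h2 := cyc_pt (k := K) (fl := Λ) (hΛ.ne 0 (Nat.zero_le _)) K
      have h3 : cyc K (Λ 0) = lin K Λ 0 := h2
      rw [← h3]
      exact h1
    have hn : n ≤ s := Nat.succ_le_succ_iff.1 hl
    obtain ⟨S, hS⟩ : ∃ S, S = bS b (s + 1) := ⟨_, rfl⟩
    obtain ⟨Y, hY⟩ : ∃ Y : Finset ι, Y = Finset.univ.filter fun i => b i = 0 := ⟨_, rfl⟩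
    have hp0 : Λ 0 ≠ 0 := hΛ.ne 0 (Nat.zero_le _)
    have hpsupp : ∀ i, b i ≠ 0 → Λ 0 i = 0 := hΛ.supp 0 (Nat.zero_le _)
    have hpY : Supp Y (Λ 0) := fun i hi => hpsupp i fun hb => hi (by
      rw [hY, Finset.mem_filter]
      exact ⟨Finset.mem_univ _, hb⟩)
    have hSY : Disjoint S Y := by
      rw [Finset.disjoint_left, hS, hY]
      intro i hi hi'
      have h1 := (mem_bS.1 hi).1
      have h2 := (Finset.mem_filter.1 hi').2
      omega
    have hmix : ∀ a, Mix (F a) S Y (mu d m a) := by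
      rw [hS, hY]
      exact mix_zero hsys
    have hpe := flag_eval hΛ
    obtain ⟨g1, g2, g3⟩ := hGS K ι α F d (mu d m) S Y hsys.hom (mu_lt hsys) hSY hmix (Λ 0) hp0
      hpY hpe
    have hsys' := hSYS K ι α F d b s m hsys (Λ 0) hpsupp
    have hflag := flag_HS (d := d) (μ := mu d m) hΛ (dS_pos hsys)
    rw [← hS] at hsys' hflag
    have hne : Nonempty (Σ a, Fin (mu d m a + 1)) :=
      ⟨⟨Classical.arbitrary α, 0⟩⟩
    have hli : LinearIndependent K (fun j : Fin (n + 2) => Λ j) := flag_li hΛ hl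
    have hli' := flag_li hflag hn
    obtain ⟨Φ, hΦ⟩ := hWD K K ι {i // i ∈ S} (Λ 0) (phiS K S) hp0
    have hΦlin := cone_lin hC hLIN (fl := Λ) (flm := fun j (i : {i // i ∈ S}) => Λ (j + 1) i.1) n
      hli hli' (phiS K S) (fun i hi x => by
        have h1 : Supp S (Λ (i + 1)) := by
          intro y hy
          refine hΛ.supp (i + 1) (by omega) y fun hb => hy ?_
          rw [hS, mem_bS, hb]
          omega
        exact sum_phiS (K := K) S h1 x) Φ hΦ
    refine hQ (s + 1) K ι α F d b m hsys (Λ 0) hp0 hpsupp hpe n hl _ (le_mult _ _)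
      (isSat_mult _ _) ?_ E P htr hP hFP
    intro κ _ _ hκ w hw hw0 hwV
    rw [← hS] at hw
    have hw'0 : (fun i : {i // i ∈ S} => w i.1) ≠ 0 := by
      intro h0
      apply hw0
      funext i
      by_cases hi : i ∈ S
      · exact congrFun h0 ⟨i, hi⟩
      · exact hw i hi
    have h1 := ih K {i // i ∈ S} (Σ a, Fin (mu d m a + 1)) _ _ _ m hsys' _ hflag n hn κ
      (fun i : {i // i ∈ S} => w i.1) hκ hw'0 ((g3 κ w hw).2 hwV)
    obtain ⟨N, hN, m0, h2⟩ := h1
    have h3 := hUA K K ι {i // i ∈ S} α (Σ a, Fin (mu d m a + 1)) n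
      ⟨inferInstance, by rw [trdeg_eq_zero, Nat.cast_zero]⟩ F _ _ hsys'.hom (Λ 0)
      (phiS K S) hp0 g1 Φ hΦ _ h2
    refine ⟨N, hN, m0, ?_⟩
    rw [map_sub, map_nsmul, map_zsmul, hΦlin, hΦ κ _ hw'0, g2 κ w hw] at h3
    exact h3

end Pool.Agent.T2h92.W15
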